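import Mathlib

set_option autoImplicit false

/-!
# A dominated polynomial for a coset (abstract form)
-/

open MvPolynomial

namespace Pool.Agent.J6H31.TZ

theorem exists_finset {σ : Type} [Fintype σ] (M : Set (σ →₀ ℕ)) (T : (σ →₀ ℕ) → (σ → ℤ))
    (hT0 : T 0 = 0) (k0 : σ →₀ ℕ) (h0 : k0 ≠ 0) (hk0 : k0 ∈ M) :
    ∃ S : Finset (σ →₀ ℕ), S.Nonempty ∧ (∀ k ∈ S, k ∈ M ∧ k ≠ 0) ∧
      ∀ k ∈ M, T k ∈ AddSubgroup.closure (T '' (S : Set (σ →₀ ℕ))) := by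
  classical
  have hfg : (Submodule.span ℤ (T '' M)).FG := IsNoetherian.noetherian _
  rw [Submodule.fg_span_iff_fg_span_finset_subset] at hfg
  obtain ⟨s', hs', hs⟩ := hfg
  rw [Finset.subset_set_image_iff] at hs'
  obtain ⟨S0, hS0, rfl⟩ := hs'
  refine ⟨(insert k0 S0).erase 0, ⟨k0, Finset.mem_erase.2 ⟨h0, Finset.mem_insert_self _ _⟩⟩,
    ?_, ?_⟩
  · intro k hk
    rw [Finset.mem_erase, Finset.mem_insert] at hk
    rcases hk with ⟨hk0', rfl | hk1⟩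
    · exact ⟨hk0, hk0'⟩
    · exact ⟨hS0 hk1, hk0'⟩
  · intro k hk
    have h1 : T k ∈ Submodule.span ℤ (T '' M) := Submodule.subset_span ⟨k, hk, rfl⟩
    rw [hs] at h1
    have h2 : Submodule.span ℤ (((S0.image T : Finset (σ → ℤ))) : Set (σ → ℤ)) ≤
        AddSubgroup.toIntSubmodule (AddSubgroup.closure
          (T '' (((insert k0 S0).erase 0 : Finset (σ →₀ ℕ)) : Set (σ →₀ ℕ)))) := by
      rw [Submodule.span_le]
      intro x hx
      rw [Finset.coe_image] at hx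
      obtain ⟨l, hl, rfl⟩ := hx
      show T l ∈ AddSubgroup.closure _
      by_cases hl0 : l = 0
      · subst hl0
        rw [hT0]
        exact zero_mem _
      · exact AddSubgroup.subset_closure ⟨l, Finset.mem_coe.2 (Finset.mem_erase.2
          ⟨hl0, Finset.mem_insert_of_mem hl⟩), rfl⟩
    exact h2 h1

/-- the polynomial -/
noncomputable def Qp {σ : Type} [Fintype σ] (a : σ → ℂ) (S : Finset (σ →₀ ℕ)) : MvPolynomial σ ℂ :=
  C (S.card : ℂ) - ∑ k ∈ S, monomial k (∏ j, a j ^ k j)⁻¹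

theorem coeff_Qp {σ : Type} [Fintype σ] [DecidableEq σ] (a : σ → ℂ) (S : Finset (σ →₀ ℕ))
    (hS : ∀ k ∈ S, k ≠ 0) (l : σ →₀ ℕ) :
    (Qp a S).coeff l = if l = 0 then (S.card : ℂ) else
      if l ∈ S then - (∏ j, a j ^ l j)⁻¹ else 0 := by
  unfold Qp
  rw [coeff_sub, coeff_C, coeff_sum]
  have h1 : ∑ k ∈ S, coeff l (monomial k (∏ j, a j ^ k j)⁻¹) =
      if l ∈ S then (∏ j, a j ^ l j)⁻¹ else 0 := by
    simp only [coeff_monomial]
    rw [Finset.sum_ite_eq']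
  rw [h1]
  by_cases hl : l = 0
  · subst hl
    rw [if_pos rfl, if_pos rfl, if_neg (fun h => hS 0 h rfl), sub_zero]
  · rw [if_neg hl, if_neg (fun h => hl h.symm)]
    split_ifs
    · ring
    · ring

theorem prod_norm {σ : Type} [Fintype σ] (a : σ → ℂ) (ha : ∀ j, ‖a j‖ = 1) (l : σ →₀ ℕ) :
    ‖∏ j, a j ^ l j‖ = 1 := by
  rw [norm_prod]
  refine Finset.prod_eq_one fun j _ => ?_
  rw [norm_pow, ha j, one_pow]

theorem support_Qp {σ : Type} [Fintype σ] [DecidableEq σ] (a : σ → ℂ) (ha : ∀ j, ‖a j‖ = 1)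
    (S : Finset (σ →₀ ℕ)) (hne : S.Nonempty) (hS : ∀ k ∈ S, k ≠ 0) :
    (Qp a S).support = insert 0 S := by
  ext l
  rw [mem_support_iff, coeff_Qp a S hS, Finset.mem_insert]
  by_cases hl : l = 0
  · simp only [hl, if_true, true_or, iff_true]
    exact_mod_cast hne.card_pos.ne'
  · simp only [hl, false_or]
    by_cases hlS : l ∈ S
    · simp only [hlS, if_true, iff_true]
      refine neg_ne_zero.2 (inv_ne_zero ?_)
      rw [← norm_ne_zero_iff, prod_norm a ha]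
      exact one_ne_zero
    · simp [hlS]

theorem eval_Qp {σ : Type} [Fintype σ] (a z : σ → ℂ) (S : Finset (σ →₀ ℕ))
    (h : ∀ k ∈ S, ∏ j, (z j / a j) ^ k j = 1) : eval z (Qp a S) = 0 := by
  unfold Qp
  rw [map_sub, map_sum, eval_C]
  have h1 : ∀ k ∈ S, eval z (monomial k (∏ j, a j ^ k j)⁻¹) = 1 := by
    intro k hk
    rw [eval_monomial, Finsupp.prod_fintype _ _ (fun i => pow_zero _)]
    have h2 := h k hk
    simp only [div_pow] at h2
    rw [Finset.prod_div_distrib] at h2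
    rw [← h2, div_eq_mul_inv, mul_comm]
  rw [Finset.sum_congr rfl h1]
  simp

theorem norm_Qp {σ : Type} [Fintype σ] [DecidableEq σ] (a : σ → ℂ) (ha : ∀ j, ‖a j‖ = 1)
    (S : Finset (σ →₀ ℕ)) (hne : S.Nonempty) (hS : ∀ k ∈ S, k ≠ 0) :
    ∑ k ∈ (Qp a S).support, ‖(Qp a S).coeff k‖ ≤ 2 * ‖(Qp a S).coeff 0‖ := by
  rw [support_Qp a ha S hne hS, Finset.sum_insert (fun h => hS 0 h rfl)]
  have h1 : ∀ k ∈ S, ‖(Qp a S).coeff k‖ = 1 := by
    intro k hk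
    rw [coeff_Qp a S hS, if_neg (hS k hk), if_pos hk, norm_neg, norm_inv, prod_norm a ha, inv_one]
  rw [Finset.sum_congr rfl h1, coeff_Qp a S hS, if_pos rfl]
  simp only [Finset.sum_const, nsmul_eq_mul, mul_one, Complex.norm_natCast]
  linarith

theorem Qp_ne {σ : Type} [Fintype σ] [DecidableEq σ] (a : σ → ℂ) (ha : ∀ j, ‖a j‖ = 1)
    (S : Finset (σ →₀ ℕ)) (hne : S.Nonempty) (hS : ∀ k ∈ S, k ≠ 0) : Qp a S ≠ 0 := by
  intro h
  have h1 := support_Qp a ha S hne hS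
  rw [h, support_zero] at h1
  exact (Finset.insert_ne_empty 0 S) h1.symm

theorem dom {σ : Type} [Fintype σ] [DecidableEq σ] (L : AddSubgroup (σ → ℤ)) (a : σ → ℂ)
    (ha : ∀ j, ‖a j‖ = 1) (hL : ∃ k : σ →₀ ℕ, k ≠ 0 ∧ (fun j => (k j : ℤ)) ∈ L) :
    ∃ Q : MvPolynomial σ ℂ, (Q ≠ 0 ∧ ∑ k ∈ Q.support, ‖Q.coeff k‖ ≤ 2 * ‖Q.coeff 0‖) ∧
      (∀ z ∈ {z : σ → ℂ | (∀ j, ‖z j‖ = 1) ∧ ∀ l ∈ L, ∏ j, (z j / a j) ^ l j = 1},
        eval z Q = 0) ∧
      ∀ k : σ →₀ ℕ, (fun j => (k j : ℤ)) ∈ AddSubgroup.closure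
        ((fun (k : σ →₀ ℕ) (j : σ) => (k j : ℤ)) '' (Q.support : Set (σ →₀ ℕ))) ↔
          (fun j => (k j : ℤ)) ∈ L := by
  obtain ⟨k0, h0, hk0⟩ := hL
  let T : (σ →₀ ℕ) → (σ → ℤ) := fun k j => (k j : ℤ)
  have hT0 : T 0 = 0 := by
    funext j
    simp [T]
  obtain ⟨S, hne, hS, hcl⟩ := exists_finset {k : σ →₀ ℕ | T k ∈ L} T hT0 k0 h0 hk0
  have hS0 : ∀ k ∈ S, k ≠ 0 := fun k hk => (hS k hk).2
  refine ⟨Qp a S, ⟨Qp_ne a ha S hne hS0, norm_Qp a ha S hne hS0⟩, ?_, fun k => ?_⟩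
  · rintro z ⟨-, hz⟩
    refine eval_Qp a z S fun k hk => ?_
    have h1 := hz _ (hS k hk).1
    simpa [T, zpow_natCast] using h1
  · rw [support_Qp a ha S hne hS0]
    constructor
    · intro hk
      have h2 : AddSubgroup.closure (T '' ((insert 0 S : Finset (σ →₀ ℕ)) : Set (σ →₀ ℕ))) ≤ L := by
        rw [AddSubgroup.closure_le]
        rintro _ ⟨l, hl, rfl⟩
        rw [Finset.mem_coe, Finset.mem_insert] at hl
        rcases hl with rfl | hl
        · rw [hT0]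
          exact zero_mem _
        · exact (hS l hl).1
      exact h2 hk
    · intro hk
      refine AddSubgroup.closure_mono ?_ (hcl k hk)
      refine Set.image_mono ?_
      intro l hl
      exact Finset.mem_coe.2 (Finset.mem_insert_of_mem (Finset.mem_coe.1 hl))

end Pool.Agent.J6H31.TZ
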