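import Pool.Agent.J6H91.TZ.Stm
import Pool.Agent.J6H31.TZ.DomAbs

set_option autoImplicit false

/-!
# TZ-DOM
-/

namespace Pool.Agent.J6H31.TZ

theorem main_DOM : Pool.Agent.J6H91.TZ.S_DOM := by
  intro σ _ _ L a ha hL
  exact dom L a ha hL

end Pool.Agent.J6H31.TZ
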