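import Pool.Agent.J6H91.TZ.Stm2

set_option autoImplicit false

/-!
# TZ-SEP: separated subsets
-/

open MeasureTheory

namespace Pool.Agent.J6H31.TZ

theorem sep_card (δ : ℝ) (T : Finset ℝ) (hT : (T : Set ℝ) ⊆ Set.Ioo (-δ) δ) (n : ℕ) (hn : 0 < n)
    (hs : ∀ s ∈ T, ∀ s' ∈ T, s ≠ s' → 1 / (n : ℝ) ≤ |s - s'|) (hδ : 0 ≤ δ) :
    T.card ≤ ⌈2 * δ * n⌉₊ := by
  have hn' : (0 : ℝ) < n := by exact_mod_cast hn
  have hmap : ∀ s ∈ T, ⌊(s + δ) * n⌋₊ ∈ Finset.range ⌈2 * δ * n⌉₊ := by
    intro s hs'
    have h1 := hT hs'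
    have h2 : (0 : ℝ) ≤ (s + δ) * n := mul_nonneg (by linarith [h1.1]) hn'.le
    rw [Finset.mem_range, Nat.floor_lt h2]
    have h3 : (s + δ) * n < 2 * δ * n := mul_lt_mul_of_pos_right (by linarith [h1.2]) hn'
    exact h3.trans_le (Nat.le_ceil _)
  have hinj : Set.InjOn (fun s : ℝ => ⌊(s + δ) * n⌋₊) (T : Set ℝ) := by
    intro s hs1 s' hs2 heq
    by_contra hne
    have h1 := hT hs1
    have h2 := hT hs2
    have h3 : (0 : ℝ) ≤ (s + δ) * n := mul_nonneg (by linarith [h1.1]) hn'.le
    have h4 : (0 : ℝ) ≤ (s' + δ) * n := mul_nonneg (by linarith [h2.1]) hn'.le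
    have h5 := Nat.floor_le h3
    have h6 := Nat.lt_floor_add_one ((s + δ) * n)
    have h7 := Nat.floor_le h4
    have h8 := Nat.lt_floor_add_one ((s' + δ) * n)
    have heq' : ⌊(s + δ) * n⌋₊ = ⌊(s' + δ) * n⌋₊ := heq
    rw [heq'] at h5 h6
    have h9 : |s - s'| * n < 1 := by
      have h10 : |(s - s') * n| < 1 := by
        rw [abs_lt]
        constructor <;> nlinarith
      rwa [abs_mul, abs_of_pos hn'] at h10
    have h11 := hs s hs1 s' hs2 hne
    rw [div_le_iff₀ hn'] at h11
    linarith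
  have := Finset.card_le_card_of_injOn _ hmap hinj
  rwa [Finset.card_range] at this

theorem main_SEP : Pool.Agent.J6H91.TZ.S_SEP := by
  classical
  intro δ A hA hv
  have hδ : 0 < δ := by
    by_contra hcon
    have h1 : A ⊆ ∅ := by
      intro a ha
      have := hA ha
      exact absurd (this.1.trans this.2) (by linarith)
    rw [Set.subset_empty_iff.1 h1, measure_empty] at hv
    exact lt_irrefl _ hv
  have hfin : volume A ≠ ⊤ := by
    have h1 : volume A ≤ volume (Set.Ioo (-δ) δ) := measure_mono hA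
    rw [Real.volume_Ioo] at h1
    exact ne_top_of_le_ne_top ENNReal.ofReal_ne_top h1
  have hvr : 0 < (volume A).toReal := ENNReal.toReal_pos hv.ne' hfin
  refine ⟨(volume A).toReal / 2, by positivity, fun n hn => ?_⟩
  have hn' : (0 : ℝ) < n := by exact_mod_cast hn
  let P : Finset ℝ → Prop := fun T => (T : Set ℝ) ⊆ A ∧
    ∀ s ∈ T, ∀ s' ∈ T, s ≠ s' → 1 / (n : ℝ) ≤ |s - s'|
  let Q : Set ℕ := {m | ∃ T, P T ∧ T.card = m}
  have hQne : Q.Nonempty := ⟨0, ∅, ⟨by simp, by simp⟩, rfl⟩
  have hQb : BddAbove Q := by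
    refine ⟨⌈2 * δ * n⌉₊, ?_⟩
    rintro m ⟨T, hT, rfl⟩
    exact sep_card δ T (hT.1.trans hA) n hn hT.2 hδ.le
  obtain ⟨T, hT, hTc⟩ := Nat.sSup_mem hQne hQb
  have hmax : ∀ T', P T' → T'.card ≤ T.card := by
    intro T' hT'
    rw [hTc]
    exact le_csSup hQb ⟨T', hT', rfl⟩
  refine ⟨T, hT.1, hT.2, ?_, ?_⟩
  · have hcov : A ⊆ ⋃ s ∈ T, Set.Icc (s - 1 / (n : ℝ)) (s + 1 / (n : ℝ)) := by
      intro a ha
      rw [Set.mem_iUnion₂]
      by_cases haT : a ∈ T
      · exact ⟨a, haT, by constructor <;> linarith [show (0 : ℝ) < 1 / n by positivity]⟩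
      · by_contra hcon
        push Not at hcon
        have hfar : ∀ s ∈ T, 1 / (n : ℝ) ≤ |a - s| := by
          intro s hs
          by_contra hlt
          push Not at hlt
          rw [abs_lt] at hlt
          exact hcon s hs ⟨by linarith [hlt.1], by linarith [hlt.2]⟩
        have hP : P (insert a T) := by
          constructor
          · intro x hx
            rw [Finset.mem_coe, Finset.mem_insert] at hx
            rcases hx with rfl | hx
            · exact ha
            · exact hT.1 hx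
          · intro s hs s' hs' hne
            rw [Finset.mem_insert] at hs hs'
            rcases hs with rfl | hs <;> rcases hs' with rfl | hs'
            · exact absurd rfl hne
            · exact hfar s' hs'
            · rw [abs_sub_comm]
              exact hfar s hs
            · exact hT.2 s hs s' hs' hne
        have := hmax _ hP
        rw [Finset.card_insert_of_notMem haT] at this
        omega
    have h1 : volume A ≤ ENNReal.ofReal (T.card * (2 / n)) := by
      calc volume A ≤ volume (⋃ s ∈ T, Set.Icc (s - 1 / (n : ℝ)) (s + 1 / (n : ℝ))) :=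
            measure_mono hcov
        _ ≤ ∑ s ∈ T, volume (Set.Icc (s - 1 / (n : ℝ)) (s + 1 / (n : ℝ))) :=
            measure_biUnion_finset_le _ _
        _ = ∑ s ∈ T, ENNReal.ofReal (2 / n) := by
            refine Finset.sum_congr rfl fun s _ => ?_
            rw [Real.volume_Icc]
            congr 1
            ring
        _ = ENNReal.ofReal (T.card * (2 / n)) := by
            rw [Finset.sum_const, nsmul_eq_mul, ENNReal.ofReal_mul (Nat.cast_nonneg _),
              ENNReal.ofReal_natCast]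
    have h2 : (volume A).toReal ≤ T.card * (2 / n) := by
      have := ENNReal.toReal_mono ENNReal.ofReal_ne_top h1
      rwa [ENNReal.toReal_ofReal (by positivity)] at this
    have h3 : (volume A).toReal * n ≤ T.card * 2 := by
      calc (volume A).toReal * n ≤ (T.card * (2 / n)) * n := mul_le_mul_of_nonneg_right h2 hn'.le
        _ = T.card * 2 := by field_simp
    linarith
  · have h1 := sep_card δ T (hT.1.trans hA) n hn hT.2 hδ.le
    have h2 : ((T.card : ℕ) : ℝ) ≤ (⌈2 * δ * n⌉₊ : ℝ) := by exact_mod_cast h1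
    have h3 := Nat.ceil_lt_add_one (show (0 : ℝ) ≤ 2 * δ * n by positivity)
    linarith

end Pool.Agent.J6H31.TZ
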